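import Pool.Agent.W307.IM.Stm
import Pool.Agent.W605.LS.PTS

set_option autoImplicit false

/-! Points of `y² = x (x² + 2 (a + b) x + (a - b)²)` over `ℚ_[p]` in given square classes. -/

namespace Pool.Agent.W941.IM

open Finset Polynomial Pool.Agent.W307.IM Pool.Agent.W605.LS

section

variable {p : ℕ} [hp : Fact p.Prime]

/-- Hensel for squares in `ℤ_[p]` -/
lemma sqZ (hp2 : p ≠ 2) (u : ℤ_[p]) (h0 : PadicInt.toZMod u ≠ 0)
    (h : IsSquare (PadicInt.toZMod u)) : ∃ z : ℤ_[p], z ^ 2 = u := by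
  obtain ⟨a, ha⟩ := h
  obtain ⟨s, hs⟩ := ZMod.intCast_surjective a
  have norm_lt : ∀ w : ℤ_[p], PadicInt.toZMod w = 0 → ‖w‖ < 1 := by
    intro w hw
    have h1 : w ∈ RingHom.ker (PadicInt.toZMod (p := p)) := hw
    rw [PadicInt.ker_toZMod] at h1
    rw [IsLocalRing.mem_maximalIdeal] at h1
    exact PadicInt.mem_nonunits.1 h1
  have norm_ge : ∀ w : ℤ_[p], PadicInt.toZMod w ≠ 0 → ‖w‖ = 1 := by
    intro w hw
    rw [← PadicInt.isUnit_iff]
    by_contra hn
    apply hw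
    have h1 : w ∈ IsLocalRing.maximalIdeal ℤ_[p] := (IsLocalRing.mem_maximalIdeal _).2 hn
    rw [← PadicInt.ker_toZMod] at h1
    exact h1
  have e1 : ∀ w : ℤ_[p], (aeval w) (X ^ 2 - C u : ℤ_[p][X]) = w ^ 2 - u := by
    intro w; simp
  have e2 : ∀ w : ℤ_[p], (aeval w) (derivative (X ^ 2 - C u : ℤ_[p][X])) = 2 * w := by
    intro w; simp; norm_num
  have h20 : (2 : ZMod p) ≠ 0 := by
    have := cast_ne (ndvd_two hp2)
    exact_mod_cast this
  have ha0 : a ≠ 0 := by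
    rintro rfl
    rw [mul_zero] at ha
    exact h0 ha
  obtain ⟨z, hz, -⟩ := hensels_lemma (p := p) (R := ℤ_[p]) (F := X ^ 2 - C u)
    (a := (s : ℤ_[p])) (by
      rw [e1, e2]
      have h3 : ‖((s : ℤ_[p]) ^ 2 - u : ℤ_[p])‖ < 1 := by
        apply norm_lt
        rw [map_sub, map_pow, map_intCast, hs, ha]
        ring
      have h4 : ‖(2 * (s : ℤ_[p]) : ℤ_[p])‖ = 1 := by
        apply norm_ge
        rw [map_mul, map_intCast, hs]
        have : (PadicInt.toZMod (2 : ℤ_[p]) : ZMod p) = 2 := map_ofNat _ 2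
        rw [this]
        exact mul_ne_zero h20 ha0
      rw [h4, one_pow]
      exact h3)
  refine ⟨z, ?_⟩
  rw [e1] at hz
  exact sub_eq_zero.1 hz

/-- a point whose `x`-coordinate is an integral unit -/
lemma rp_of (hp2 : p ≠ 2) (a b d X : ℤ) (hX : ¬ (p : ℤ) ∣ X) (hd : ¬ (p : ℤ) ∣ d)
    (hs : IsSquare ((X * d : ℤ) : ZMod p)) (h1 : X ≠ a - b) (h2 : X ≠ b - a)
    (h3 : ¬ (p : ℤ) ∣ X * (X ^ 2 + 2 * (a + b) * X + (a - b) ^ 2))
    (h4 : IsSquare ((X * (X ^ 2 + 2 * (a + b) * X + (a - b) ^ 2) : ℤ) : ZMod p)) :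
    Rp a b ℚ_[p] d := by
  obtain ⟨z, hz⟩ := sqp hp2 (X * d) (ndvd_mul hX hd) hs
  obtain ⟨y, hy⟩ := sqp hp2 _ h3 h4
  have hd0 := ne_zero' hd
  have hX0 := ne_zero' hX
  refine ⟨X, y, z / d, ?_, ?_, ?_, ?_, ?_, ?_⟩
  · have hz0 : z ≠ 0 := by
      rintro rfl
      push_cast at hz
      have : (X : ℚ_[p]) * d = 0 := by rw [← hz]; ring
      exact mul_ne_zero hX0 hd0 this
    exact div_ne_zero hz0 hd0
  · rw [div_pow, hz]
    push_cast
    field_simp
  · rintro rfl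
    apply ne_zero' h3
    rw [← hy]
    ring
  · intro h
    apply h1
    have : (X : ℚ_[p]) = ((a - b : ℤ) : ℚ_[p]) := by rw [h]; push_cast; ring
    exact_mod_cast this
  · intro h
    apply h2
    have : (X : ℚ_[p]) = ((b - a : ℤ) : ℚ_[p]) := by rw [h]; push_cast; ring
    exact_mod_cast this
  · rw [hy]
    push_cast
    ring

/-- the combinatorial lemma at good primes -/
lemma exPG (hp2 : p ≠ 2) {m D c : ZMod p} (hD : D ≠ 0) (hc : c ≠ 0)
    (hm : m ^ 2 - D = c ^ 2) : ∃ x : ZMod p, ¬ IsSquare x ∧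
      ((x + m) ^ 2 - D = 0 ∨ ¬ IsSquare ((x + m) ^ 2 - D)) := by
  have hF : ringChar (ZMod p) ≠ 2 := by rwa [ZMod.ringChar_zmod_n]
  by_contra hcon
  push Not at hcon
  have h1 : ∑ x : ZMod p, quadraticChar (ZMod p) ((x + m) ^ 2 - D) = -1 := by
    rw [← sum_char_sq_sub hp2 hD]
    exact Equiv.sum_comp (Equiv.addRight m) (fun y => quadraticChar (ZMod p) (y ^ 2 - D))
  have h2 := quadraticChar_sum_zero hF
  have h3 : ∀ x : ZMod p, 0 ≤ quadraticChar (ZMod p) ((x + m) ^ 2 - D) +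
      quadraticChar (ZMod p) x := by
    intro x
    by_cases hx0 : x = 0
    · have e : (x + m) ^ 2 - D = c ^ 2 := by rw [hx0, zero_add, hm]
      rw [e, hx0, quadraticChar_zero, add_zero, quadraticChar_sq_one' hc]
      norm_num
    · by_cases hs : IsSquare x
      · rw [(quadraticChar_one_iff_isSquare hx0).2 hs]
        have := char_ge' ((x + m) ^ 2 - D)
        linarith
      · obtain ⟨h5, h6⟩ := hcon x hs
        rw [quadraticChar_neg_one_iff_not_isSquare.2 hs,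
          (quadraticChar_one_iff_isSquare h5).2 h6]
        norm_num
  have h4 : 0 ≤ ∑ x : ZMod p, (quadraticChar (ZMod p) ((x + m) ^ 2 - D) +
      quadraticChar (ZMod p) x) := Finset.sum_nonneg (fun x _ => h3 x)
  rw [Finset.sum_add_distrib, h1, h2] at h4
  norm_num at h4

/-- the combinatorial lemma for `PN` -/
lemma exPN (hp5 : 5 ≤ p) {c : ZMod p} (hc : c ≠ 0) : ∃ t : ZMod p, t ≠ 0 ∧
    ¬ IsSquare (t ^ 2 - c) := by
  have hp2 : p ≠ 2 := by omega
  by_contra hcon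
  push Not at hcon
  have h1 := sum_char_sq_sub hp2 hc
  rw [← Finset.add_sum_erase _ _ (Finset.mem_univ (0 : ZMod p))] at h1
  have hge : ∀ t ∈ (Finset.univ.erase (0 : ZMod p)), 0 ≤ quadraticChar (ZMod p) (t ^ 2 - c) := by
    intro t ht
    apply char_ge
    rw [quadraticChar_neg_one_iff_not_isSquare, not_not]
    exact hcon t (Finset.ne_of_mem_erase ht)
  have hS0 := Finset.sum_nonneg hge
  have h0 := char_ge' ((0 : ZMod p) ^ 2 - c)
  have hS : ∑ t ∈ Finset.univ.erase (0 : ZMod p), quadraticChar (ZMod p) (t ^ 2 - c) = 0 := by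
    linarith
  have hall := (Finset.sum_eq_zero_iff_of_nonneg hge).1 hS
  have h20 : (2 : ZMod p) ≠ 0 := by
    have := cast_ne (ndvd_two hp2)
    exact_mod_cast this
  have h30 : (3 : ZMod p) ≠ 0 := by
    intro h
    have h3 : ((3 : ℕ) : ZMod p) = 0 := by exact_mod_cast h
    rw [ZMod.natCast_eq_zero_iff] at h3
    have := Nat.le_of_dvd (by norm_num) h3
    omega
  have e1 := hall 1 (by simp)
  have e2 := hall 2 (by simp [h20])
  rw [quadraticChar_eq_zero_iff] at e1 e2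
  apply h30
  linear_combination e2 - e1

end

theorem pg : PG := by
  intro p hp a b d hp2 ha hb hab hd
  by_cases hs : IsSquare (d : ZMod p)
  · exact Or.inl (sqp hp2 d hd hs)
  right
  have h4 := ndvd_four hp2
  have hD : ((4 * (a * b) : ℤ) : ZMod p) ≠ 0 := cast_ne (ndvd_mul h4 (ndvd_mul ha hb))
  have hc : ((a - b : ℤ) : ZMod p) ≠ 0 := cast_ne hab
  obtain ⟨x, hx1, hx2⟩ := exPG (m := ((a + b : ℤ) : ZMod p)) hp2 hD hc (by push_cast; ring)
  have hx0 : x ≠ 0 := by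
    rintro rfl
    exact hx1 IsSquare.zero
  by_cases hq0 : (x + ((a + b : ℤ) : ZMod p)) ^ 2 - ((4 * (a * b) : ℤ) : ZMod p) = 0
  · -- a root modulo p
    have hsq : IsSquare (PadicInt.toZMod (((4 * (a * b) : ℤ) : ℤ_[p]))) := by
      rw [map_intCast]
      exact ⟨x + ((a + b : ℤ) : ZMod p), by linear_combination -hq0⟩
    obtain ⟨s, hs2⟩ := sqZ hp2 ((4 * (a * b) : ℤ) : ℤ_[p]) (by rw [map_intCast]; exact hD) hsq
    have hs3 : (PadicInt.toZMod s) ^ 2 = (x + ((a + b : ℤ) : ZMod p)) ^ 2 := by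
      rw [← map_pow, hs2, map_intCast]
      linear_combination -hq0
    obtain ⟨s', hs'2, hs'⟩ : ∃ s' : ℤ_[p], s' ^ 2 = ((4 * (a * b) : ℤ) : ℤ_[p]) ∧
        PadicInt.toZMod s' = x + ((a + b : ℤ) : ZMod p) := by
      rcases sq_eq_sq_iff_eq_or_eq_neg.1 hs3 with h | h
      · exact ⟨s, hs2, h⟩
      · refine ⟨-s, by rw [neg_sq, hs2], ?_⟩
        rw [map_neg, h, neg_neg]
    -- the root r
    obtain ⟨r, hr⟩ : ∃ r : ℤ_[p], r = s' - ((a + b : ℤ) : ℤ_[p]) := ⟨_, rfl⟩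
    have hrx : PadicInt.toZMod r = x := by
      rw [hr, map_sub, hs', map_intCast]
      ring
    have hs'0 : PadicInt.toZMod s' ≠ 0 := by
      intro h
      apply hD
      have : (PadicInt.toZMod s') ^ 2 = ((4 * (a * b) : ℤ) : ZMod p) := by
        rw [← map_pow, hs'2, map_intCast]
      rw [← this, h]
      ring
    have h20 : (2 : ZMod p) ≠ 0 := by
      have := cast_ne (ndvd_two hp2)
      exact_mod_cast this
    -- the integer e, with e * 2 * s' in the class of x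
    obtain ⟨e, he⟩ := ZMod.intCast_surjective (x * (2 * PadicInt.toZMod s'))
    have hpZ : PadicInt.toZMod ((p : ℕ) : ℤ_[p]) = (0 : ZMod p) := by
      rw [map_natCast]
      exact ZMod.natCast_self p
    obtain ⟨X, hX⟩ : ∃ X : ℤ_[p], X = r + (p : ℤ_[p]) ^ 2 * (e : ℤ_[p]) := ⟨_, rfl⟩
    have hXx : PadicInt.toZMod X = x := by
      rw [hX, map_add, map_mul, map_pow, hpZ, hrx]
      ring
    have hqX : X ^ 2 + 2 * ((a + b : ℤ) : ℤ_[p]) * X + ((a - b : ℤ) : ℤ_[p]) ^ 2 =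
        (p : ℤ_[p]) ^ 2 * ((e : ℤ_[p]) * (2 * s') + (p : ℤ_[p]) ^ 2 * (e : ℤ_[p]) ^ 2) := by
      rw [hX, hr]
      push_cast at hs'2 ⊢
      linear_combination hs'2
    -- squares
    obtain ⟨W, hW⟩ : ∃ W : ℤ_[p], W = X * ((e : ℤ_[p]) * (2 * s') +
      (p : ℤ_[p]) ^ 2 * (e : ℤ_[p]) ^ 2) := ⟨_, rfl⟩
    have hWz : PadicInt.toZMod W = (x * (2 * PadicInt.toZMod s')) *
        (x * (2 * PadicInt.toZMod s')) := by
      have : (PadicInt.toZMod (2 : ℤ_[p]) : ZMod p) = 2 := map_ofNat _ 2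
      rw [hW, map_mul, map_add, map_mul, map_mul, map_mul, map_pow, map_pow, hpZ, hXx,
        map_intCast, he, this]
      ring
    have hWne : PadicInt.toZMod W ≠ 0 := by
      rw [hWz]
      have : x * (2 * PadicInt.toZMod s') ≠ 0 := mul_ne_zero hx0 (mul_ne_zero h20 hs'0)
      exact mul_ne_zero this this
    obtain ⟨w, hw⟩ := sqZ hp2 W hWne ⟨_, hWz⟩
    have hdz : PadicInt.toZMod (X * (d : ℤ_[p])) = x * (d : ZMod p) := by
      rw [map_mul, hXx, map_intCast]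
    have hd0' := cast_ne hd
    obtain ⟨k, hk⟩ := sqZ hp2 (X * (d : ℤ_[p])) (by rw [hdz]; exact mul_ne_zero hx0 hd0')
      (by rw [hdz]; exact sq_mul hx1 hs)
    have hd0 := ne_zero' hd
    have hX0 : (X : ℚ_[p]) ≠ 0 := by
      intro h
      have : X = 0 := PadicInt.ext (by rw [h, PadicInt.coe_zero])
      rw [this, map_zero] at hXx
      exact hx0 hXx.symm
    have hk0 : (k : ℚ_[p]) ≠ 0 := by
      intro h
      have : k = 0 := PadicInt.ext (by rw [h, PadicInt.coe_zero])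
      rw [this] at hk
      have h5 : PadicInt.toZMod (X * (d : ℤ_[p])) = 0 := by
        rw [← hk]
        simp
      rw [hdz] at h5
      exact mul_ne_zero hx0 hd0' h5
    have hp0 : (p : ℚ_[p]) ≠ 0 := by exact_mod_cast hp.out.ne_zero
    have hw0 : (w : ℚ_[p]) ≠ 0 := by
      intro h
      have : w = 0 := PadicInt.ext (by rw [h, PadicInt.coe_zero])
      rw [this] at hw
      apply hWne
      rw [← hw]
      simp
    -- x ≠ ± c
    have hzero : ∀ c : ℤ, (X : ℚ_[p]) = (c : ℚ_[p]) → (c : ZMod p) = x := by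
      intro c h
      have : X = (c : ℤ_[p]) := by
        apply PadicInt.ext
        rw [h, PadicInt.coe_intCast]
      rw [this, map_intCast] at hXx
      exact hXx
    have h2z : ((2 : ℤ) : ZMod p) ≠ 0 := by exact_mod_cast h20
    have ha' := cast_ne ha
    have hb' := cast_ne hb
    refine ⟨X, (p : ℚ_[p]) * w, k / d, div_ne_zero hk0 hd0, ?_, mul_ne_zero hp0 hw0, ?_, ?_, ?_⟩
    · have hk' : (k : ℚ_[p]) ^ 2 = X * d := by
        rw [← PadicInt.coe_pow, hk, PadicInt.coe_mul, PadicInt.coe_intCast]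
      rw [div_pow, hk']
      field_simp
    · intro h
      have h5 := hzero (a - b) (by rw [h]; push_cast; ring)
      rw [← h5] at hq0
      have h6 : ((a - b : ℤ) : ZMod p) * (((2 : ℤ) : ZMod p) * (((2 : ℤ) : ZMod p) *
          (a : ZMod p))) = 0 := by
        push_cast at hq0 ⊢
        linear_combination hq0
      exact mul_ne_zero hc (mul_ne_zero h2z (mul_ne_zero h2z ha')) h6
    · intro h
      have h5 := hzero (b - a) (by rw [h]; push_cast; ring)
      rw [← h5] at hq0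
      have h6 : ((a - b : ℤ) : ZMod p) * (((2 : ℤ) : ZMod p) * (((2 : ℤ) : ZMod p) *
          (b : ZMod p))) = 0 := by
        push_cast at hq0 ⊢
        linear_combination -hq0
      exact mul_ne_zero hc (mul_ne_zero h2z (mul_ne_zero h2z hb')) h6
    · have h2c : (((2 : ℤ_[p])) : ℚ_[p]) = 2 := rfl
      have hw' : (w : ℚ_[p]) ^ 2 = X * ((e : ℚ_[p]) * (2 * s') +
          (p : ℚ_[p]) ^ 2 * (e : ℚ_[p]) ^ 2) := by
        have := congrArg (fun z : ℤ_[p] => (z : ℚ_[p])) (hw.trans hW)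
        simpa [h2c] using this
      have hq' : (X : ℚ_[p]) ^ 2 + 2 * ((a : ℚ_[p]) + b) * X + ((a : ℚ_[p]) - b) ^ 2 =
          (p : ℚ_[p]) ^ 2 * ((e : ℚ_[p]) * (2 * s') + (p : ℚ_[p]) ^ 2 * (e : ℚ_[p]) ^ 2) := by
        have := congrArg (fun z : ℤ_[p] => (z : ℚ_[p])) hqX
        simpa [h2c] using this
      rw [hq', mul_pow, hw']
      ring
  · -- q x is a nonsquare
    have hx3 : ¬ IsSquare ((x + ((a + b : ℤ) : ZMod p)) ^ 2 - ((4 * (a * b) : ℤ) : ZMod p)) := by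
      rcases hx2 with h | h
      · exact absurd h hq0
      · exact h
    obtain ⟨X0, hX0⟩ := ZMod.intCast_surjective x
    obtain ⟨X, hX, hXa, hXb⟩ : ∃ X : ℤ, (X : ZMod p) = x ∧ X ≠ a - b ∧ X ≠ b - a := by
      have hpz : ((p : ℤ) : ZMod p) = 0 := by simp
      have hppos : (0 : ℤ) < p := by exact_mod_cast hp.out.pos
      by_cases h1 : X0 ≠ a - b ∧ X0 ≠ b - a
      · exact ⟨X0, hX0, h1.1, h1.2⟩
      by_cases h2 : X0 + p ≠ a - b ∧ X0 + p ≠ b - a
      · refine ⟨X0 + p, ?_, h2.1, h2.2⟩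
        rw [Int.cast_add, hpz, hX0, add_zero]
      refine ⟨X0 + p + p, ?_, ?_, ?_⟩
      · rw [Int.cast_add, Int.cast_add, hpz, hX0, add_zero, add_zero]
      · omega
      · omega
    have hqx : (x + ((a + b : ℤ) : ZMod p)) ^ 2 - ((4 * (a * b) : ℤ) : ZMod p) =
        ((X ^ 2 + 2 * (a + b) * X + (a - b) ^ 2 : ℤ) : ZMod p) := by
      rw [← hX]
      push_cast
      ring
    rw [hqx] at hx3
    rw [← hX] at hx1 hx0
    have hXp : ¬ (p : ℤ) ∣ X := by
      rwa [Ne, ZMod.intCast_zmod_eq_zero_iff_dvd] at hx0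
    refine rp_of hp2 a b d X hXp hd ?_ hXa hXb ?_ ?_
    · rw [Int.cast_mul]
      exact sq_mul hx1 hs
    · rw [← ZMod.intCast_zmod_eq_zero_iff_dvd, Int.cast_mul]
      apply mul_ne_zero hx0
      intro h
      rw [h] at hx3
      exact hx3 IsSquare.zero
    · rw [Int.cast_mul]
      exact sq_mul hx1 hx3

theorem pn : PN := by
  intro p hp a b d hp5 ha hab hd
  have hp2 : p ≠ 2 := by omega
  by_cases hs : IsSquare (d : ZMod p)
  · exact Or.inl (sqp hp2 d hd hs)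
  right
  have h4 := ndvd_four hp2
  obtain ⟨t, ht0, ht⟩ := exPN hp5 (cast_ne (ndvd_mul h4 ha))
  obtain ⟨X, hX⟩ := ZMod.intCast_surjective (t ^ 2 - ((4 * a : ℤ) : ZMod p))
  have hx1 : ¬ IsSquare (X : ZMod p) := by rw [hX]; exact ht
  have hx0 : (X : ZMod p) ≠ 0 := by
    intro h
    rw [h] at hx1
    exact hx1 IsSquare.zero
  have hXp : ¬ (p : ℤ) ∣ X := by
    rwa [Ne, ZMod.intCast_zmod_eq_zero_iff_dvd] at hx0
  have hab0 : (a : ZMod p) - (b : ZMod p) = 0 := by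
    have := (ZMod.intCast_zmod_eq_zero_iff_dvd (a - b) p).2 hab
    push_cast at this
    exact this
  have key : ((X * (X ^ 2 + 2 * (a + b) * X + (a - b) ^ 2) : ℤ) : ZMod p) =
      ((X : ZMod p) * t) * ((X : ZMod p) * t) := by
    push_cast at hX ⊢
    linear_combination (-2 * (X : ZMod p) ^ 2 + (X : ZMod p) * ((a : ZMod p) - b)) * hab0 +
      (X : ZMod p) ^ 2 * hX
  refine rp_of hp2 a b d X hXp hd ?_ ?_ ?_ ?_ ?_
  · rw [Int.cast_mul]
    exact sq_mul hx1 hs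
  · rintro rfl
    exact hXp hab
  · rintro rfl
    apply hXp
    have := (dvd_neg (a := (p : ℤ)) (b := a - b)).2 hab
    rwa [neg_sub] at this
  · rw [← ZMod.intCast_zmod_eq_zero_iff_dvd, key]
    exact mul_ne_zero (mul_ne_zero hx0 ht0) (mul_ne_zero hx0 ht0)
  · exact ⟨_, key⟩

theorem pt : PT := by
  intro p hp a b d hp5 hja hab hd hd2 hne
  have hp2 : p ≠ 2 := by omega
  obtain ⟨ha, sa⟩ := jac_one hja
  obtain ⟨c, hc⟩ := hab
  obtain ⟨d', hd'⟩ := hd
  have hd'p : ¬ (p : ℤ) ∣ d' := by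
    intro h
    apply hd2
    rw [hd', sq]
    exact mul_dvd_mul_left _ h
  have hdne : d ≠ 0 := by
    rintro rfl
    exact hd2 (dvd_zero _)
  -- the multiplier
  obtain ⟨k, hk0, hka, hkb⟩ : ∃ k : ℤ, ¬ (p : ℤ) ∣ k ∧ d * k ^ 2 ≠ a - b ∧ d * k ^ 2 ≠ b - a := by
    by_cases h : d ≠ a - b ∧ d ≠ b - a
    · refine ⟨1, ?_, by rw [one_pow, mul_one]; exact h.1, by rw [one_pow, mul_one]; exact h.2⟩
      intro h1
      have := Int.le_of_dvd one_pos h1
      omega
    · refine ⟨2, ndvd_two hp2, ?_, ?_⟩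
      · omega
      · omega
  obtain ⟨D, hD⟩ : ∃ D : ℤ, D = d' * k ^ 2 := ⟨_, rfl⟩
  have hDp : ¬ (p : ℤ) ∣ D := by
    rw [hD]
    exact ndvd_mul hd'p (by rw [sq]; exact ndvd_mul hk0 hk0)
  have hD0 := cast_ne hDp
  obtain ⟨s, hsa⟩ := sa
  have h20 : (2 : ZMod p) ≠ 0 := by
    have := cast_ne (ndvd_two hp2)
    exact_mod_cast this
  have ha0 := cast_ne ha
  have hs0 : s ≠ 0 := by
    rintro rfl
    rw [mul_zero] at hsa
    exact ha0 hsa
  have hpz : ((p : ℤ) : ZMod p) = 0 := by simp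
  have hba : (b : ZMod p) = a := by
    have h1 : ((a - b : ℤ) : ZMod p) = ((p * c : ℤ) : ZMod p) := by rw [hc]
    rw [Int.cast_mul, hpz, zero_mul, Int.cast_sub] at h1
    linear_combination -h1
  have key : ((D * (p * D ^ 2 + 2 * (a + b) * D + p * c ^ 2) : ℤ) : ZMod p) =
      (2 * s * (D : ZMod p)) * (2 * s * (D : ZMod p)) := by
    have hpz' : ((p : ℕ) : ZMod p) = 0 := ZMod.natCast_self p
    push_cast
    rw [hba, hpz', hsa]
    ring
  have kne : (2 * s * (D : ZMod p)) ≠ 0 := mul_ne_zero (mul_ne_zero h20 hs0) hD0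
  obtain ⟨w, hw⟩ := sqp hp2 (D * (p * D ^ 2 + 2 * (a + b) * D + p * c ^ 2))
    (by rw [← ZMod.intCast_zmod_eq_zero_iff_dvd, key]; exact mul_ne_zero kne kne) ⟨_, key⟩
  have hw0 : w ≠ 0 := by
    rintro rfl
    have h5 : ((D * (p * D ^ 2 + 2 * (a + b) * D + p * c ^ 2) : ℤ) : ℚ_[p]) = 0 := by
      rw [← hw]; ring
    have h6 : (D * (p * D ^ 2 + 2 * (a + b) * D + p * c ^ 2) : ℤ) = 0 := by exact_mod_cast h5
    rw [h6, Int.cast_zero] at key
    exact mul_ne_zero kne kne key.symm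
  have hp0 : (p : ℚ_[p]) ≠ 0 := by exact_mod_cast hp.out.ne_zero
  have hdk : d * k ^ 2 = p * D := by rw [hd', hD]; ring
  have hdk' : (d : ℚ_[p]) * (k : ℚ_[p]) ^ 2 = (p : ℚ_[p]) * D := by exact_mod_cast hdk
  have hc' : (a : ℚ_[p]) - b = (p : ℚ_[p]) * c := by exact_mod_cast hc
  refine ⟨(d : ℚ_[p]) * (k : ℚ_[p]) ^ 2, (p : ℚ_[p]) * w, k, ne_zero' hk0, rfl,
    mul_ne_zero hp0 hw0, ?_, ?_, ?_⟩
  · intro h
    apply hka
    exact_mod_cast h
  · intro h
    apply hkb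
    exact_mod_cast h
  · rw [mul_pow, hw, hdk', hc']
    push_cast
    ring

end Pool.Agent.W941.IM
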